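import Mathlib

namespace Pool.Agent.P.MP_b90bcc_co

/-- `r` is the arc relation of a tournament: loopless, and for distinct vertices exactly one
of the two possible arcs is present. -/
def IsTournament {V : Type} (r : V → V → Prop) : Prop :=
  (∀ v, ¬ r v v) ∧ ∀ u v, u ≠ v → (r u v ∧ ¬ r v u) ∨ (r v u ∧ ¬ r u v)

/-- The least number of transitive sets of arcs whose union is the whole arc set. -/
noncomputable def pod {V : Type} (r : V → V → Prop) : ℕ :=
  sInf {m : ℕ | ∃ P : Fin m → Set (V × V),
    (∀ i a b c, (a, b) ∈ P i → (b, c) ∈ P i → (a, c) ∈ P i) ∧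
    ⋃ i, P i = {e : V × V | r e.1 e.2}}

end Pool.Agent.P.MP_b90bcc_co
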