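import Pool.Agent.P.MP_b90bcc_co.Main

/-! The parameters for which the local-to-global statement holds. -/

set_option autoImplicit false

namespace Pool.Agent.P.MP_b90bcc_co.Exa

lemma arc_of_pod {V : Type} {r : V → V → Prop} (h : 1 ≤ pod r) : ∃ a b, r a b := by
  by_contra hno
  have : pod r ≤ 0 := by
    refine Nat.sInf_le ⟨fun i => i.elim0, fun i => i.elim0, ?_⟩
    ext e
    simp only [Set.mem_iUnion, Set.mem_ofPred_eq]
    exact ⟨fun ⟨i, _⟩ => i.elim0, fun h => absurd ⟨_, _, h⟩ hno⟩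
  omega

lemma tri_of_pod {V : Type} {r : V → V → Prop} (hr : IsTournament r) (h : 2 ≤ pod r) :
    ∃ a b c, r a b ∧ r b c ∧ r c a := by
  by_contra hno
  have : pod r ≤ 1 := by
    refine Nat.sInf_le ⟨fun _ => {e | r e.1 e.2}, fun _ a b c h1 h2 => ?_, Set.iUnion_const _⟩
    by_cases hac : a = c
    · subst hac
      by_cases hab : a = b
      · subst hab
        exact h1
      · rcases hr.2 a b hab with h3 | h3
        · exact absurd h2 h3.2
        · exact absurd h1 h3.2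
    · rcases hr.2 a c hac with h3 | h3
      · exact h3.1
      · exact absurd ⟨a, b, c, h1, h2, h3.1⟩ hno
  omega

lemma asymm_of {V : Type} {r : V → V → Prop} (hr : IsTournament r) {a b : V} (h : r a b) :
    ¬ r b a := by
  by_cases hab : a = b
  · subst hab
    exact hr.1 a
  · rcases hr.2 a b hab with h3 | h3
    · exact h3.2
    · exact absurd h h3.2

lemma one_le_pod {V : Type} [Finite V] {r : V → V → Prop} (hr : ∀ v, ¬ r v v) {a b : V}
    (h : r a b) : 1 ≤ pod r := by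
  obtain ⟨P, -, hU⟩ := Nat.sInf_mem (pod_set_nonempty r hr)
  have h1 : (a, b) ∈ ⋃ i, P i := by
    rw [hU]
    exact h
  obtain ⟨i, -⟩ := Set.mem_iUnion.mp h1
  exact i.pos

lemma three_le_pod {V : Type} [Finite V] {r : V → V → Prop} (hr : ∀ a b, r a b → ¬ r b a)
    {a b c : V} (h1 : r a b) (h2 : r b c) (h3 : r c a) : 3 ≤ pod r := by
  obtain ⟨P, hP, hU⟩ := Nat.sInf_mem (pod_set_nonempty r fun v h => hr v v h h)
  have hm : ∀ x y, r x y ↔ ∃ i, (x, y) ∈ P i := by
    intro x y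
    rw [← Set.mem_iUnion, hU]
    exact Iff.rfl
  obtain ⟨i, hi⟩ := (hm _ _).1 h1
  obtain ⟨j, hj⟩ := (hm _ _).1 h2
  obtain ⟨k, hk⟩ := (hm _ _).1 h3
  have e1 : i.val ≠ j.val := fun h => by
    obtain rfl := Fin.ext h
    exact hr _ _ h3 ((hm _ _).2 ⟨i, hP _ _ _ _ hi hj⟩)
  have e2 : j.val ≠ k.val := fun h => by
    obtain rfl := Fin.ext h
    exact hr _ _ h1 ((hm _ _).2 ⟨j, hP _ _ _ _ hj hk⟩)
  have e3 : k.val ≠ i.val := fun h => by
    obtain rfl := Fin.ext h
    exact hr _ _ h2 ((hm _ _).2 ⟨k, hP _ _ _ _ hk hi⟩)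
  have b1 : i.val < pod r := i.2
  have b2 : j.val < pod r := j.2
  have b3 : k.val < pod r := k.2
  omega

lemma two_le_card {V : Type} [Fintype V] {r : V → V → Prop} (hr : IsTournament r)
    (h : 1 ≤ pod r) : 2 ≤ Fintype.card V := by
  obtain ⟨x, y, hxy⟩ := arc_of_pod h
  refine Fintype.one_lt_card_iff.2 ⟨x, y, ?_⟩
  rintro rfl
  exact hr.1 _ hxy

lemma three_le_card {V : Type} [Fintype V] {r : V → V → Prop} (hr : IsTournament r)
    (h : 2 ≤ pod r) : 3 ≤ Fintype.card V := by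
  obtain ⟨x, y, z, g1, g2, g3⟩ := tri_of_pod hr h
  refine Fintype.two_lt_card_iff.2 ⟨x, y, z, ?_, ?_, ?_⟩
  · rintro rfl
    exact hr.1 _ g1
  · rintro rfl
    exact hr.1 _ g3
  · rintro rfl
    exact hr.1 _ g2

lemma restrict {V : Type} {r : V → V → Prop} (hr : IsTournament r) (X : Finset V) :
    IsTournament fun a b : X => r a b :=
  ⟨fun v => hr.1 v, fun u v h => hr.2 u v fun h' => h (Subtype.ext h')⟩

theorem exact_range (k s : ℕ) (hs : 0 < s) :
    (∃ N : ℕ, ∀ (n : ℕ) (r : Fin n → Fin n → Prop), IsTournament r → N ≤ pod r →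
      ∃ X : Finset (Fin n), X.card ≤ k ∧ s ≤ pod (fun a b : X => r a b)) ↔
    (s = 1 ∧ 2 ≤ k) ∨ (s = 2 ∧ 3 ≤ k) ∨ (s = 3 ∧ 3 ≤ k) := by
  constructor
  · rintro ⟨N, hN⟩
    obtain ⟨n, r, h1, h2, h3⟩ := main_aux k N
    obtain ⟨X, h4, h5⟩ := hN n r h1 h2
    have h6 := h3 X h4
    have h7 := two_le_card (restrict h1 X) (le_trans hs h5)
    have h8 := fun h : 2 ≤ s => three_le_card (restrict h1 X) (h.trans h5)
    rw [Fintype.card_coe] at h7 h8
    omega
  · intro h
    refine ⟨2, fun n r hr hN => ?_⟩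
    obtain ⟨a, b, c, h1, h2, h3⟩ := tri_of_pod hr hN
    by_cases hs1 : s = 1
    · subst hs1
      refine ⟨{a, b}, Finset.card_le_two.trans (by omega), ?_⟩
      exact one_le_pod (r := fun u v : ({a, b} : Finset (Fin n)) => r u v) (fun v => hr.1 v)
        (a := ⟨a, by simp⟩) (b := ⟨b, by simp⟩) h1
    · refine ⟨{a, b, c}, Finset.card_le_three.trans (by omega), le_trans (by omega : s ≤ 3) ?_⟩
      exact three_le_pod (r := fun u v : ({a, b, c} : Finset (Fin n)) => r u v)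
        (fun u v h => asymm_of hr h) (a := ⟨a, by simp⟩) (b := ⟨b, by simp⟩) (c := ⟨c, by simp⟩)
        h1 h2 h3

end Pool.Agent.P.MP_b90bcc_co.Exa
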