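import Mathlib

/-! Graphs of large chromatic number all of whose subgraphs of small linear size are
3-colourable, by counting. -/

set_option autoImplicit false

namespace Pool.Agent.P.MP_b90bcc_co.Lin

open Finset

lemma weight {ι : Type} [Fintype ι] [DecidableEq ι] {n : ℕ} (B : Finset (ι → Fin n)) (S : Finset ι)
    (t : ι → Finset (Fin n)) (ρ : ℝ) (hB : ∀ f ∈ B, ∀ i ∈ S, f i ∈ t i)
    (ht : ∀ i ∈ S, ((t i).card : ℝ) ≤ ρ * n) :
    (B.card : ℝ) ≤ ρ ^ S.card * (n : ℝ) ^ Fintype.card ι := by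
  have h1 : B ⊆ Fintype.piFinset fun i => if i ∈ S then t i else univ := by
    intro f hf
    refine Fintype.mem_piFinset.2 fun i => ?_
    split_ifs with hi
    · exact hB f hf i hi
    · exact mem_univ _
  refine (Nat.cast_le.2 (card_le_card h1)).trans ?_
  rw [Fintype.card_piFinset, Nat.cast_prod]
  calc ∏ i, (((if i ∈ S then t i else univ).card : ℕ) : ℝ)
      ≤ ∏ i, ((if i ∈ S then ρ else 1) * (n : ℝ)) := by
        refine prod_le_prod (fun _ _ => Nat.cast_nonneg _) fun i _ => ?_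
        split_ifs with hi
        · exact ht i hi
        · simp
    _ = ρ ^ S.card * (n : ℝ) ^ Fintype.card ι := by
        rw [prod_mul_distrib, prod_const, card_univ, prod_ite_mem, univ_inter, prod_const]

lemma choose_mul_le (n s : ℕ) (hn : 0 < n) : (n.choose s : ℝ) * ((s : ℝ) / n) ^ s ≤ 3 ^ s := by
  have h1 : (n.choose s : ℝ) ≤ (n : ℝ) ^ s / s.factorial := by
    have := Nat.choose_le_pow_div (α := ℝ) s n
    exact_mod_cast this
  have hn' : (0 : ℝ) < n := by exact_mod_cast hn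
  have h2 : (s : ℝ) ^ s / s.factorial ≤ Real.exp s :=
    Real.pow_div_factorial_le_exp _ (Nat.cast_nonneg _) _
  have h3 : Real.exp s ≤ 3 ^ s := by
    rw [← mul_one (s : ℝ), Real.exp_nat_mul]
    exact pow_le_pow_left₀ (Real.exp_pos _).le (by linarith [Real.exp_one_lt_d9]) _
  calc (n.choose s : ℝ) * ((s : ℝ) / n) ^ s ≤ (n : ℝ) ^ s / s.factorial * ((s : ℝ) / n) ^ s := by
        gcongr
    _ = (s : ℝ) ^ s / s.factorial := by
        rw [div_pow]
        field_simp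
    _ ≤ 3 ^ s := h2.trans h3

lemma geo (n : ℕ) : ∑ s ∈ range (n + 1), (if s = 0 then 0 else (1 / 4 : ℝ) ^ s) ≤
    1 / 3 - (1 / 4) ^ n / 3 := by
  induction n with
  | zero => simp
  | succ n ih =>
    rw [sum_range_succ, if_neg (Nat.succ_ne_zero n), pow_succ]
    linarith

theorem exists_fun (q : ℕ) (hq : 0 < q) : ∃ (c : ℕ) (ε : ℝ), 0 < ε ∧ ∀ n : ℕ, 2 * q ≤ n →
    ∃ f : Fin n × Fin c → Fin n,
      (∀ I : Finset (Fin n), n ≤ q * I.card → ∃ u ∈ I, ∃ j, f (u, j) ∈ I ∧ f (u, j) ≠ u) ∧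
      ∀ X : Finset (Fin n), X.Nonempty → (X.card : ℝ) ≤ ε * n →
        2 * ((X ×ˢ univ).filter fun i => f i ∈ X).card < 3 * X.card := by
  classical
  have hq' : (1 : ℝ) ≤ q := by exact_mod_cast hq
  have hρ0 : (0 : ℝ) ≤ 1 - 1 / (2 * q) := by
    rw [sub_nonneg, div_le_one (by positivity)]
    linarith
  have hρ1 : (1 : ℝ) - 1 / (2 * q) < 1 := by
    have : (0 : ℝ) < 1 / (2 * q) := by positivity
    linarith
  obtain ⟨c', hc'⟩ := exists_pow_lt_of_lt_one (show (0 : ℝ) < 1 / 8 by norm_num) hρ1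
  obtain ⟨δ, hδ⟩ : ∃ δ : ℝ, δ = 1 / (12 * 2 ^ (q * c')) := ⟨_, rfl⟩
  have hδ0 : 0 < δ := by rw [hδ]; positivity
  have hδ1 : δ ≤ 1 := by
    rw [hδ, div_le_one (by positivity)]
    have : (1 : ℝ) ≤ 2 ^ (q * c') := one_le_pow₀ (by norm_num)
    linarith
  refine ⟨q * c', δ ^ 2, by positivity, fun n hn => ?_⟩
  have hn0 : 0 < n := by omega
  have hn' : (0 : ℝ) < n := by exact_mod_cast hn0
  obtain ⟨M, hM⟩ : ∃ M : ℝ, M = (n : ℝ) ^ Fintype.card (Fin n × Fin (q * c')) := ⟨_, rfl⟩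
  have hM0 : 0 < M := by rw [hM]; positivity
  obtain ⟨B1, hB1⟩ : ∃ B1 : Finset (Fin n) → Finset (Fin n × Fin (q * c') → Fin n), ∀ I f,
      f ∈ B1 I ↔ ∀ i ∈ I ×ˢ (univ : Finset (Fin (q * c'))), f i ∈ (I.erase i.1)ᶜ :=
    ⟨fun I => univ.filter fun f => ∀ i ∈ I ×ˢ (univ : Finset (Fin (q * c'))), f i ∈ (I.erase i.1)ᶜ,
      fun _ _ => mem_filter.trans (and_iff_right (mem_univ _))⟩
  obtain ⟨B2, hB2⟩ : ∃ B2 : Finset (Fin n) → Finset (Fin n × Fin (q * c')) →
      Finset (Fin n × Fin (q * c') → Fin n), ∀ X S f, f ∈ B2 X S ↔ ∀ i ∈ S, f i ∈ X :=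
    ⟨fun X S => univ.filter fun f => ∀ i ∈ S, f i ∈ X,
      fun _ _ _ => mem_filter.trans (and_iff_right (mem_univ _))⟩
  have h1 : ∀ I : Finset (Fin n), n ≤ q * I.card → ((B1 I).card : ℝ) ≤ (1 / 8) ^ n * M := by
    intro I hI
    have hI2 : 2 ≤ I.card := by
      by_contra h
      have : q * I.card ≤ q * 1 := Nat.mul_le_mul_left _ (by omega)
      omega
    have hI3 : (n : ℝ) ≤ q * I.card := by exact_mod_cast hI
    have hI4 : (2 : ℝ) ≤ I.card := by exact_mod_cast hI2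
    rw [hM]
    refine (weight (B1 I) (I ×ˢ univ) (fun i => (I.erase i.1)ᶜ) (1 - 1 / (2 * q))
      (fun f hf => (hB1 I f).1 hf) fun i hi => ?_).trans ?_
    · have e1 := card_erase_add_one (mem_product.1 hi).1
      have e2 := card_add_card_compl (I.erase i.1)
      rw [Fintype.card_fin] at e2
      have e3 : (((I.erase i.1)ᶜ).card : ℝ) + I.card = n + 1 := by
        exact_mod_cast (by omega : ((I.erase i.1)ᶜ).card + I.card = n + 1)
      have e4 : 1 / (2 * (q : ℝ)) * n ≤ I.card - 1 := by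
        rw [div_mul_eq_mul_div, div_le_iff₀ (by positivity)]
        nlinarith
      linarith
    · refine mul_le_mul_of_nonneg_right ?_ (by positivity)
      rw [card_product, card_univ, Fintype.card_fin]
      have e1 : c' * n ≤ I.card * (q * c') := by nlinarith
      refine (pow_le_pow_of_le_one hρ0 hρ1.le e1).trans ?_
      rw [pow_mul]
      exact pow_le_pow_left₀ (by positivity) hc'.le _
  have h2 : ∀ (X : Finset (Fin n)) (S : Finset (Fin n × Fin (q * c'))), (X.card : ℝ) ≤ δ ^ 2 * n →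
      3 * X.card ≤ 2 * S.card →
      ((B2 X S).card : ℝ) ≤ ((X.card : ℝ) / n) ^ X.card * δ ^ X.card * M := by
    intro X S hX hS
    rw [hM]
    refine (weight (B2 X S) S (fun _ => X) ((X.card : ℝ) / n) (fun f hf => (hB2 X S f).1 hf)
      fun _ _ => (div_mul_cancel₀ _ hn'.ne').ge).trans
        (mul_le_mul_of_nonneg_right ?_ (by positivity))
    obtain ⟨k, hk⟩ : ∃ k, S.card = X.card + k := ⟨S.card - X.card, by omega⟩
    rw [hk, pow_add]
    refine mul_le_mul_of_nonneg_left ?_ (by positivity)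
    have e1 : (X.card : ℝ) / n ≤ δ ^ 2 := by rwa [div_le_iff₀ hn']
    refine (pow_le_pow_left₀ (by positivity) e1 _).trans ?_
    rw [← pow_mul]
    exact pow_le_pow_of_le_one hδ0.le hδ1 (by omega)
  obtain ⟨A1, hA1⟩ : ∃ A1 : Finset (Finset (Fin n)),
      A1 = univ.filter fun I => n ≤ q * I.card := ⟨_, rfl⟩
  obtain ⟨A2, hA2⟩ : ∃ A2 : Finset (Finset (Fin n)),
      A2 = univ.filter fun X => X.Nonempty ∧ (X.card : ℝ) ≤ δ ^ 2 * n := ⟨_, rfl⟩
  obtain ⟨A3, hA3⟩ : ∃ A3 : Finset (Fin n) → Finset (Finset (Fin n × Fin (q * c'))), ∀ X,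
      A3 X = (X ×ˢ univ).powerset.filter fun S => 3 * X.card ≤ 2 * S.card := ⟨_, fun _ => rfl⟩
  have h3 : ((A1.biUnion B1).card : ℝ) ≤ 1 / 4 * M := by
    have e1 : ((A1.biUnion B1).card : ℝ) ≤ ∑ I ∈ A1, ((B1 I).card : ℝ) := by
      exact_mod_cast card_biUnion_le
    have e2 : ∑ I ∈ A1, ((B1 I).card : ℝ) ≤ A1.card • ((1 / 8 : ℝ) ^ n * M) :=
      sum_le_card_nsmul _ _ _ fun I hI => h1 I (by rw [hA1] at hI; exact (mem_filter.1 hI).2)
    have e3 : (A1.card : ℝ) ≤ 2 ^ n := by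
      have := card_le_univ A1
      rw [Fintype.card_finset, Fintype.card_fin] at this
      exact_mod_cast this
    have e4 : (2 : ℝ) ^ n * (1 / 8) ^ n ≤ 1 / 4 := by
      rw [← mul_pow]
      exact (pow_le_of_le_one (by norm_num) (by norm_num) hn0.ne').trans (by norm_num)
    rw [nsmul_eq_mul] at e2
    calc ((A1.biUnion B1).card : ℝ) ≤ 2 ^ n * ((1 / 8 : ℝ) ^ n * M) :=
          e1.trans (e2.trans (by gcongr))
      _ = 2 ^ n * (1 / 8 : ℝ) ^ n * M := by ring
      _ ≤ 1 / 4 * M := by gcongr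
  obtain ⟨w, hw⟩ : ∃ w : ℕ → ℝ, ∀ s, w s =
      if s = 0 then 0 else ((s : ℝ) / n) ^ s * (1 / 12) ^ s * M := ⟨_, fun _ => rfl⟩
  have h4 : ∀ X ∈ A2, (((A3 X).biUnion (B2 X)).card : ℝ) ≤ w X.card := by
    intro X hX
    rw [hA2] at hX
    obtain ⟨hX1, hX2⟩ := (mem_filter.1 hX).2
    have e1 : (((A3 X).biUnion (B2 X)).card : ℝ) ≤ ∑ S ∈ A3 X, ((B2 X S).card : ℝ) := by
      exact_mod_cast card_biUnion_le
    have e2 : ∑ S ∈ A3 X, ((B2 X S).card : ℝ) ≤
        (A3 X).card • (((X.card : ℝ) / n) ^ X.card * δ ^ X.card * M) :=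
      sum_le_card_nsmul _ _ _ fun S hS => h2 X S hX2 (by rw [hA3] at hS; exact (mem_filter.1 hS).2)
    have e3 : ((A3 X).card : ℝ) ≤ (2 ^ (q * c')) ^ X.card := by
      have : (A3 X).card ≤ (2 ^ (q * c')) ^ X.card := by
        rw [hA3]
        refine (card_filter_le _ _).trans ?_
        rw [card_powerset, card_product, card_univ, Fintype.card_fin, ← pow_mul, mul_comm]
      exact_mod_cast this
    have e4 : (2 : ℝ) ^ (q * c') * δ = 1 / 12 := by
      rw [hδ]
      field_simp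
    rw [nsmul_eq_mul] at e2
    rw [hw, if_neg (card_pos.2 hX1).ne', ← e4, mul_pow]
    refine e1.trans (e2.trans ?_)
    calc ((A3 X).card : ℝ) * (((X.card : ℝ) / n) ^ X.card * δ ^ X.card * M)
        ≤ (2 ^ (q * c')) ^ X.card * (((X.card : ℝ) / n) ^ X.card * δ ^ X.card * M) := by gcongr
      _ = _ := by ring
  have h5 : ((A2.biUnion fun X => (A3 X).biUnion (B2 X)).card : ℝ) ≤ 1 / 3 * M := by
    have e1 : ((A2.biUnion fun X => (A3 X).biUnion (B2 X)).card : ℝ) ≤
        ∑ X ∈ A2, (((A3 X).biUnion (B2 X)).card : ℝ) := by exact_mod_cast card_biUnion_le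
    have e2 : ∑ X ∈ A2, w X.card ≤ ∑ X ∈ (univ : Finset (Fin n)).powerset, w X.card :=
      sum_le_sum_of_subset_of_nonneg (fun X _ => mem_powerset.2 (subset_univ _)) fun X _ _ => by
        rw [hw]
        split_ifs
        · exact le_rfl
        · positivity
    rw [sum_powerset_apply_card, card_univ, Fintype.card_fin] at e2
    have e3 : ∑ s ∈ range (n + 1), n.choose s • w s ≤
        ∑ s ∈ range (n + 1), (if s = 0 then 0 else (1 / 4 : ℝ) ^ s) * M := by
      refine sum_le_sum fun s _ => ?_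
      rw [hw, nsmul_eq_mul]
      split_ifs
      · simp
      · have := choose_mul_le n s hn0
        calc (n.choose s : ℝ) * (((s : ℝ) / n) ^ s * (1 / 12) ^ s * M)
            = (n.choose s : ℝ) * ((s : ℝ) / n) ^ s * ((1 / 12) ^ s * M) := by ring
          _ ≤ 3 ^ s * ((1 / 12) ^ s * M) := by gcongr
          _ = (1 / 4) ^ s * M := by
              rw [← mul_assoc, ← mul_pow]
              norm_num
    rw [← sum_mul] at e3
    have e4 := geo n
    have e5 : (0 : ℝ) ≤ (1 / 4) ^ n / 3 := by positivity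
    have e6 := sum_le_sum h4
    have e7 : (∑ s ∈ range (n + 1), (if s = 0 then 0 else (1 / 4 : ℝ) ^ s)) * M ≤ 1 / 3 * M :=
      mul_le_mul_of_nonneg_right (by linarith) hM0.le
    linarith
  have h6 : (A1.biUnion B1 ∪ A2.biUnion fun X => (A3 X).biUnion (B2 X)).card <
      (univ : Finset (Fin n × Fin (q * c') → Fin n)).card := by
    have e1 : (((univ : Finset (Fin n × Fin (q * c') → Fin n)).card : ℕ) : ℝ) = M := by
      rw [hM, card_univ, Fintype.card_fun, Fintype.card_fin, Nat.cast_pow]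
    have e2 : ((A1.biUnion B1 ∪ A2.biUnion fun X => (A3 X).biUnion (B2 X)).card : ℝ) ≤
        (A1.biUnion B1).card + (A2.biUnion fun X => (A3 X).biUnion (B2 X)).card := by
      exact_mod_cast card_union_le _ _
    have e3 : ((A1.biUnion B1 ∪ A2.biUnion fun X => (A3 X).biUnion (B2 X)).card : ℝ) <
        ((univ : Finset (Fin n × Fin (q * c') → Fin n)).card : ℕ) := by
      rw [e1]
      linarith
    exact_mod_cast e3
  obtain ⟨f, -, hf⟩ := exists_mem_notMem_of_card_lt_card h6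
  refine ⟨f, fun I hI => ?_, fun X hX1 hX2 => ?_⟩
  · by_contra hno
    refine hf (mem_union_left _ (mem_biUnion.2 ⟨I, ?_, ?_⟩))
    · rw [hA1]
      exact mem_filter.2 ⟨mem_univ _, hI⟩
    · refine (hB1 I f).2 fun i hi => mem_compl.2 fun h => hno ?_
      exact ⟨i.1, (mem_product.1 hi).1, i.2, (mem_erase.1 h).2, (mem_erase.1 h).1⟩
  · by_contra hno
    refine hf (mem_union_right _ (mem_biUnion.2 ⟨X, ?_, mem_biUnion.2
      ⟨(X ×ˢ univ).filter fun i => f i ∈ X, ?_, ?_⟩⟩))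
    · rw [hA2]
      exact mem_filter.2 ⟨mem_univ _, hX1, hX2⟩
    · rw [hA3]
      exact mem_filter.2 ⟨mem_powerset.2 (filter_subset _ _), not_lt.1 hno⟩
    · exact (hB2 _ _ f).2 fun i hi => (mem_filter.1 hi).2

end Pool.Agent.P.MP_b90bcc_co.Lin
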