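import Pool.Agent.P.MP_b90bcc_co.Main
import Pool.Agent.P.MP_b90bcc_co.LinA

/-! Tournaments of large decomposition number whose subtournaments of small linear size have
small number. -/

set_option autoImplicit false

namespace Pool.Agent.P.MP_b90bcc_co.Lin

open Finset

lemma three_colour {n c : ℕ} (f : Fin n × Fin c → Fin n) (K : ℕ → Prop)
    (hK : ∀ a b, a ≤ b → K b → K a)
    (hf : ∀ X : Finset (Fin n), X.Nonempty → K X.card →
      2 * ((X ×ˢ univ).filter fun i => f i ∈ X).card < 3 * X.card) (X : Finset (Fin n)) :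
    K X.card → ∃ col : Fin n → Fin 3, ∀ u ∈ X, ∀ v ∈ X, u ≠ v → (∃ j, f (u, j) = v) →
      col u ≠ col v := by
  induction X using Finset.strongInductionOn with
  | _ X ih =>
    intro hX
    rcases X.eq_empty_or_nonempty with rfl | hne
    · exact ⟨fun _ => 0, by simp⟩
    obtain ⟨S, hS⟩ : ∃ S : Finset (Fin n × Fin c), S = (X ×ˢ univ).filter fun i => f i ∈ X :=
      ⟨_, rfl⟩
    have h1 := hf X hne hX
    rw [← hS] at h1
    have hS' : ∀ i, i ∈ S ↔ i.1 ∈ X ∧ f i ∈ X := by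
      intro i
      rw [hS, mem_filter, mem_product]
      simp
    have e1 : S.card = ∑ v ∈ X, (S.filter fun i => i.1 = v).card :=
      card_eq_sum_card_fiberwise fun i hi => ((hS' i).1 hi).1
    have e2 : S.card = ∑ v ∈ X, (S.filter fun i => f i = v).card :=
      card_eq_sum_card_fiberwise fun i hi => ((hS' i).1 hi).2
    have h2 : ∑ v ∈ X, ((S.filter fun i => i.1 = v).card + (S.filter fun i => f i = v).card) <
        ∑ _v ∈ X, 3 := by
      rw [sum_add_distrib, ← e1, ← e2, sum_const, smul_eq_mul]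
      omega
    obtain ⟨v, hv, hv2⟩ := exists_lt_of_sum_lt h2
    obtain ⟨col, hcol⟩ := ih (X.erase v) (erase_ssubset hv)
      (hK _ _ (card_le_card (erase_subset _ _)) hX)
    have h3 : ((S.filter fun i => i.1 = v).image (fun i => col (f i)) ∪
        (S.filter fun i => f i = v).image fun i => col i.1).card <
        (univ : Finset (Fin 3)).card := by
      have a1 := card_union_le ((S.filter fun i => i.1 = v).image (fun i => col (f i)))
        ((S.filter fun i => f i = v).image fun i => col i.1)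
      have a2 := card_image_le (s := S.filter fun i => i.1 = v) (f := fun i => col (f i))
      have a3 := card_image_le (s := S.filter fun i => f i = v) (f := fun i => col i.1)
      rw [card_univ, Fintype.card_fin]
      omega
    obtain ⟨a, -, ha⟩ := exists_mem_notMem_of_card_lt_card h3
    refine ⟨fun u => if u = v then a else col u, ?_⟩
    rintro u hu w hw huw ⟨j, hj⟩
    have hm : (u, j) ∈ S := (hS' _).2 ⟨hu, by rw [hj]; exact hw⟩
    by_cases hu' : u = v
    · have hw' : w ≠ v := fun h => huw (hu'.trans h.symm)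
      simp only [if_pos hu', if_neg hw']
      intro h
      exact ha (mem_union_left _ (mem_image.2 ⟨(u, j), mem_filter.2 ⟨hm, hu'⟩, by rw [hj, h]⟩))
    · by_cases hw' : w = v
      · simp only [if_neg hu', if_pos hw']
        intro h
        exact ha (mem_union_right _ (mem_image.2 ⟨(u, j), mem_filter.2 ⟨hm, hj.trans hw'⟩, h⟩))
      · simp only [if_neg hu', if_neg hw']
        exact hcol u (mem_erase.2 ⟨hu', hu⟩) w (mem_erase.2 ⟨hw', hw⟩) huw ⟨j, hj⟩

theorem exists_graph (C : Type) [Finite C] : ∃ ε : ℝ, 0 < ε ∧ ∃ n₀ : ℕ, ∀ n, n₀ ≤ n →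
    ∃ G : Fin n → Fin n → Prop, (∀ u v, G u v → G v u) ∧
      (∀ X : Finset (Fin n), (X.card : ℝ) ≤ ε * n →
        ∃ col : Fin n → Fin 3, ∀ u ∈ X, ∀ v ∈ X, G u v → col u ≠ col v) ∧
      ¬ ∃ col : Fin n → C, ∀ u v, G u v → col u ≠ col v := by
  classical
  have := Fintype.ofFinite C
  obtain ⟨c, ε, hε, h⟩ := exists_fun (Fintype.card C + 1) (Nat.succ_pos _)
  refine ⟨ε, hε, 2 * (Fintype.card C + 1), fun n hn => ?_⟩
  obtain ⟨f, h1, h2⟩ := h n hn
  refine ⟨fun u v => u ≠ v ∧ ((∃ j, f (u, j) = v) ∨ ∃ j, f (v, j) = u),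
    fun u v h => ⟨h.1.symm, h.2.symm⟩, fun X hX => ?_, ?_⟩
  · obtain ⟨col, hcol⟩ := three_colour f (fun a => (a : ℝ) ≤ ε * n)
      (fun a b hab hb => (Nat.cast_le.2 hab).trans hb) h2 X hX
    refine ⟨col, fun u hu v hv h => ?_⟩
    rcases h.2 with h' | h'
    · exact hcol u hu v hv h.1 h'
    · exact (hcol v hv u hu h.1.symm h').symm
  · rintro ⟨col, hcol⟩
    have e1 : (univ : Finset (Fin n)).card = ∑ a : C, (univ.filter fun u => col u = a).card :=
      card_eq_sum_card_fiberwise fun _ _ => mem_univ _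
    rw [card_univ, Fintype.card_fin] at e1
    have e2 : ∃ a : C, n ≤ (Fintype.card C + 1) * (univ.filter fun u => col u = a).card := by
      by_contra hno
      have e3 : ∑ a : C, (Fintype.card C + 1) * (univ.filter fun u => col u = a).card ≤
          ∑ _a : C, n := sum_le_sum fun a _ => (not_le.1 fun h => hno ⟨a, h⟩).le
      rw [← mul_sum, ← e1, sum_const, card_univ, smul_eq_mul, add_mul] at e3
      omega
    obtain ⟨a, ha⟩ := e2
    obtain ⟨u, hu, j, hj1, hj2⟩ := h1 _ ha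
    exact hcol u (f (u, j)) ⟨hj2.symm, Or.inl ⟨j, rfl⟩⟩
      ((mem_filter.1 hu).2.trans (mem_filter.1 hj1).2.symm)

theorem linear (N : ℕ) : ∃ ε : ℝ, 0 < ε ∧ ∃ n₀ : ℕ, ∀ n, n₀ ≤ n →
    ∃ r : Fin n → Fin n → Prop, IsTournament r ∧ N ≤ pod r ∧
      ∀ X : Finset (Fin n), (X.card : ℝ) ≤ ε * n → pod (fun a b : X => r a b) ≤ 4 := by
  classical
  obtain ⟨ε, hε, n₀, h⟩ := exists_graph (Set (Fin N) × Set (Fin N))
  obtain ⟨n₁, hn₁⟩ := exists_nat_ge (4 / ε)
  refine ⟨ε, hε, max n₀ n₁, fun n hn => ?_⟩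
  obtain ⟨G, hs, hb, hc⟩ := h n ((le_max_left _ _).trans hn)
  have h4 : (4 : ℝ) ≤ ε * n := by
    have e1 : (n₁ : ℝ) ≤ n := Nat.cast_le.2 ((le_max_right _ _).trans hn)
    rw [div_le_iff₀ hε] at hn₁
    nlinarith
  obtain ⟨r, hr⟩ : ∃ r : Fin n → Fin n → Prop,
      ∀ u v, r u v ↔ (v < u ∧ G u v) ∨ (u < v ∧ ¬ G u v) := ⟨_, fun _ _ => Iff.rfl⟩
  have r_irr : ∀ v, ¬ r v v := by
    intro v h
    rcases (hr _ _).1 h with h | h <;> exact lt_irrefl _ h.1
  have back : ∀ u v, v < u → r u v → G u v := by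
    intro u v h1 h2
    rcases (hr _ _).1 h2 with h | h
    · exact h.2
    · exact absurd h.1 (lt_asymm h1)
  refine ⟨r, ⟨r_irr, fun u v huv => ?_⟩, ?_, fun X hX => ?_⟩
  · have h1 := hs u v
    have h2 := hs v u
    have h3 : u < v → ¬ v < u := lt_asymm
    have h5 := lt_or_gt_of_ne huv
    rw [hr, hr]
    tauto
  · by_contra hlt
    have hlt' : pod r < N := not_le.1 hlt
    obtain ⟨P, hP, hU⟩ := Nat.sInf_mem (pod_set_nonempty r r_irr)
    have hsub : ∀ i a b, (a, b) ∈ P i → r a b := by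
      intro i a b h
      have : (a, b) ∈ ⋃ i, P i := Set.mem_iUnion.mpr ⟨i, h⟩
      rw [hU] at this
      exact this
    have key : ∀ v w, v < w → G w v →
        {j : Fin N | ∃ i, i.val = j.val ∧ ∃ x, x < w ∧ (w, x) ∈ P i} =
          {j : Fin N | ∃ i, i.val = j.val ∧ ∃ x, x < v ∧ (v, x) ∈ P i} →
        {j : Fin N | ∃ i, i.val = j.val ∧ ∃ x y, x < w ∧ y < x ∧ (w, x) ∈ P i ∧ (x, y) ∈ P i} =
          {j : Fin N | ∃ i, i.val = j.val ∧ ∃ x y, x < v ∧ y < x ∧ (v, x) ∈ P i ∧ (x, y) ∈ P i} →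
        False := by
      intro v w hvw hG e1 e2
      have h1 : (w, v) ∈ ⋃ i, P i := by
        rw [hU]
        exact (hr _ _).2 (Or.inl ⟨hvw, hG⟩)
      obtain ⟨i, hi⟩ := Set.mem_iUnion.mp h1
      have h2 : (⟨i.val, i.2.trans hlt'⟩ : Fin N) ∈
          {j : Fin N | ∃ i, i.val = j.val ∧ ∃ x, x < w ∧ (w, x) ∈ P i} := ⟨i, rfl, v, hvw, hi⟩
      rw [e1] at h2
      obtain ⟨i', hi', x, hx1, hx2⟩ := h2
      obtain rfl : i' = i := Fin.ext hi'
      have h3 : (⟨i'.val, i'.2.trans hlt'⟩ : Fin N) ∈ {j : Fin N | ∃ i, i.val = j.val ∧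
          ∃ x y, x < w ∧ y < x ∧ (w, x) ∈ P i ∧ (x, y) ∈ P i} :=
        ⟨i', rfl, v, x, hvw, hx1, hi, hx2⟩
      rw [e2] at h3
      obtain ⟨i'', hi'', y, z, hy, hz, hy', hz'⟩ := h3
      obtain rfl : i'' = i' := Fin.ext hi''
      have g1 := back _ _ hy (hsub _ _ _ hy')
      have g2 := back _ _ hz (hsub _ _ _ hz')
      have g3 := back _ _ (hy.trans hvw) (hsub _ _ _ (hP _ _ _ _ hi hy'))
      have g4 := back _ _ (hz.trans hy) (hsub _ _ _ (hP _ _ _ _ hy' hz'))
      have g5 := back _ _ ((hz.trans hy).trans hvw)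
        (hsub _ _ _ (hP _ _ _ _ hi (hP _ _ _ _ hy' hz')))
      obtain ⟨col, hcol⟩ := hb {w, v, y, z}
        ((Nat.cast_le.2 card_le_four).trans (by simpa using h4))
      have a1 := hcol w (by simp) v (by simp) hG
      have a2 := hcol v (by simp) y (by simp) g1
      have a3 := hcol y (by simp) z (by simp) g2
      have a4 := hcol w (by simp) y (by simp) g3
      have a5 := hcol v (by simp) z (by simp) g4
      have a6 := hcol w (by simp) z (by simp) g5
      omega
    refine hc ⟨fun w => ({j : Fin N | ∃ i, i.val = j.val ∧ ∃ x, x < w ∧ (w, x) ∈ P i},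
      {j : Fin N | ∃ i, i.val = j.val ∧ ∃ x y, x < w ∧ y < x ∧ (w, x) ∈ P i ∧ (x, y) ∈ P i}), ?_⟩
    intro u v hG heq
    have e1 := congrArg Prod.fst heq
    have e2 := congrArg Prod.snd heq
    rcases lt_trichotomy u v with h1 | h1 | h1
    · exact key u v h1 (hs _ _ hG) e1.symm e2.symm
    · obtain ⟨col, hcol⟩ := hb {u} (by simpa using (by linarith : (1 : ℝ) ≤ ε * n))
      subst h1
      exact hcol u (by simp) u (by simp) hG rfl
    · exact key v u h1 hG e1 e2
  · obtain ⟨col, hcol⟩ := hb X hX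
    refine Nat.sInf_le ⟨fun i : Fin 4 => {e | r e.1 e.2 ∧
      ((i.val = 3 ∧ col e.1 = col e.2) ∨ ((col e.1).val = i.val ∧ col e.1 ≠ col e.2 ∧
        (col e.2).val ≠ i.val))}, ?_, ?_⟩
    · rintro i a b d ⟨h1, h1'⟩ ⟨h2, h2'⟩
      simp only at h1 h1' h2 h2'
      have hb3 := (col b).2
      have ha3 := (col a).2
      rcases h1' with ⟨p1, p2⟩ | ⟨p1, p2, p3⟩
      · rcases h2' with ⟨-, q2⟩ | ⟨q1, -, -⟩
        · have hab : (a : Fin n) < b := by
            rcases (hr _ _).1 h1 with h | h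
            · exact absurd p2 (hcol _ a.2 _ b.2 h.2)
            · exact h.1
          have hbd : (b : Fin n) < d := by
            rcases (hr _ _).1 h2 with h | h
            · exact absurd q2 (hcol _ b.2 _ d.2 h.2)
            · exact h.1
          exact ⟨(hr _ _).2 (Or.inr ⟨hab.trans hbd,
            fun h => hcol _ a.2 _ d.2 h (p2.trans q2)⟩), Or.inl ⟨p1, p2.trans q2⟩⟩
        · omega
      · rcases h2' with ⟨q1, -⟩ | ⟨q1, -, -⟩
        · omega
        · exact absurd q1 p3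
    · ext e
      simp only [Set.mem_iUnion, Set.mem_ofPred_eq]
      refine ⟨fun ⟨_, h⟩ => h.1, fun h => ?_⟩
      by_cases h1 : col e.1 = col e.2
      · exact ⟨3, h, Or.inl ⟨rfl, h1⟩⟩
      · exact ⟨(col e.1).castSucc, h, Or.inr ⟨rfl, h1, fun h2 => h1 (Fin.ext h2).symm⟩⟩

end Pool.Agent.P.MP_b90bcc_co.Lin
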