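import Pool.Agent.P.MP_b90bcc_co.Defs

namespace Pool.Agent.P.MP_b90bcc_co

/-- Iterated arc digraphs: acyclic, locally bipartite, not colourable with a given palette. -/
theorem exists_shift (k : ℕ) : ∀ (C : Type) [Finite C],
    ∃ (V : Type) (_ : Finite V) (D : V → V → Prop) (f : V → ℕ),
      (∀ u v, D u v → f u < f v) ∧
      (∀ X : Finset V, X.card ≤ k → ∃ c : V → Bool, ∀ u ∈ X, ∀ v ∈ X, D u v → c u ≠ c v) ∧
      ¬ ∃ c : V → C, ∀ u v, D u v → c u ≠ c v := by
  classical
  induction k with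
  | zero =>
    intro C _
    have := Fintype.ofFinite C
    refine ⟨Fin (Fintype.card C + 1), inferInstance, fun u v => u < v, fun u => u.val,
      fun u v h => h, ?_, ?_⟩
    · intro X hX
      have : X = ∅ := Finset.card_eq_zero.mp (Nat.le_zero.mp hX)
      exact ⟨fun _ => true, by simp [this]⟩
    · rintro ⟨c, hc⟩
      obtain ⟨x, y, hxy, h⟩ := Fintype.exists_ne_map_eq_of_card_lt c (by simp)
      rcases lt_or_gt_of_ne hxy with h1 | h1
      · exact hc x y h1 h
      · exact hc y x h1 h.symm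
  | succ k ih =>
    intro C _
    obtain ⟨V, hV, D, f, hf, hb, hc⟩ := ih (Set C)
    refine ⟨{e : V × V // D e.1 e.2}, inferInstance, fun x y => x.1.2 = y.1.1,
      fun x => f x.1.1, ?_, ?_, ?_⟩
    · intro x y h
      have := hf _ _ x.2
      simpa [h] using this
    · intro X hX
      by_cases h1 : (X.image fun x => x.1.1).card ≤ k
      · obtain ⟨c, hc⟩ := hb _ h1
        refine ⟨fun x => c x.1.1, fun u hu v hv h => ?_⟩
        refine hc _ (Finset.mem_image_of_mem _ hu) _ (Finset.mem_image_of_mem _ hv) ?_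
        rw [← h]; exact u.2
      · have hne : X.Nonempty := by
          rcases X.eq_empty_or_nonempty with h | h
          · simp [h] at h1
          · exact h
        obtain ⟨x0, hx0, hmin⟩ := X.exists_min_image (fun x => f x.1.1) hne
        have h2 : ((X.erase x0).image fun x => x.1.1).card ≤ k := by
          refine Finset.card_image_le.trans ?_
          rw [Finset.card_erase_of_mem hx0]; omega
        obtain ⟨c, hc⟩ := hb _ h2
        refine ⟨fun x => if x = x0 then !(c x0.1.2) else c x.1.1, fun u hu v hv h => ?_⟩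
        have hlt : f u.1.1 < f v.1.1 := by
          have := hf _ _ u.2
          simpa [h] using this
        have hv0 : v ≠ x0 := by
          rintro rfl
          exact absurd (hmin u hu) (not_le.mpr hlt)
        by_cases hu0 : u = x0
        · subst hu0
          simp only [if_true, hv0, if_false, h]
          cases c v.1.1 <;> simp
        · simp only [hu0, hv0, if_false]
          refine hc _ (Finset.mem_image_of_mem _ (Finset.mem_erase.mpr ⟨hu0, hu⟩)) _
            (Finset.mem_image_of_mem _ (Finset.mem_erase.mpr ⟨hv0, hv⟩)) ?_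
          rw [← h]; exact u.2
    · rintro ⟨c, hcc⟩
      refine hc ⟨fun a => {j | ∃ x : {e : V × V // D e.1 e.2}, x.1.1 = a ∧ c x = j}, ?_⟩
      intro u v huv heq
      have h1 : c ⟨(u, v), huv⟩ ∈
          {j | ∃ x : {e : V × V // D e.1 e.2}, x.1.1 = u ∧ c x = j} := ⟨_, rfl, rfl⟩
      have heq' : {j | ∃ x : {e : V × V // D e.1 e.2}, x.1.1 = u ∧ c x = j} =
          {j | ∃ x : {e : V × V // D e.1 e.2}, x.1.1 = v ∧ c x = j} := heq
      rw [heq'] at h1
      obtain ⟨x, hx, hx'⟩ := h1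
      exact hcc ⟨(u, v), huv⟩ x hx.symm hx'.symm

theorem exists_shift_fin (k : ℕ) (C : Type) [Finite C] :
    ∃ (n : ℕ) (D : Fin n → Fin n → Prop) (f : Fin n → ℕ),
      (∀ u v, D u v → f u < f v) ∧
      (∀ X : Finset (Fin n), X.card ≤ k →
        ∃ c : Fin n → Bool, ∀ u ∈ X, ∀ v ∈ X, D u v → c u ≠ c v) ∧
      ¬ ∃ c : Fin n → C, ∀ u v, D u v → c u ≠ c v := by
  classical
  obtain ⟨V, hV, D, f, hf, hb, hc⟩ := exists_shift k C
  obtain ⟨n, ⟨e⟩⟩ := Finite.exists_equiv_fin V
  refine ⟨n, fun u v => D (e.symm u) (e.symm v), fun u => f (e.symm u),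
    fun u v h => hf _ _ h, ?_, ?_⟩
  · intro X hX
    obtain ⟨c, hc⟩ := hb (X.image e.symm) (Finset.card_image_le.trans hX)
    exact ⟨fun u => c (e.symm u), fun u hu v hv h =>
      hc _ (Finset.mem_image_of_mem _ hu) _ (Finset.mem_image_of_mem _ hv) h⟩
  · rintro ⟨c, hcc⟩
    exact hc ⟨fun u => c (e u), fun u v h => hcc _ _ (by simpa using h)⟩

theorem pod_set_nonempty {V : Type} [Finite V] (r : V → V → Prop) (hr : ∀ v, ¬ r v v) :
    {m : ℕ | ∃ P : Fin m → Set (V × V),
      (∀ i a b c, (a, b) ∈ P i → (b, c) ∈ P i → (a, c) ∈ P i) ∧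
      ⋃ i, P i = {e : V × V | r e.1 e.2}}.Nonempty := by
  obtain ⟨m, ⟨e⟩⟩ := Finite.exists_equiv_fin (V × V)
  refine ⟨m, fun i => {x | x = e.symm i ∧ r x.1 x.2}, ?_, ?_⟩
  · rintro i a b c ⟨h1, h2⟩ ⟨h3, h4⟩
    have h5 : (a, b) = (b, c) := h1.trans h3.symm
    have : a = b := congrArg Prod.fst h5
    subst this
    exact absurd h2 (hr a)
  · ext x
    simp only [Set.mem_iUnion, Set.mem_ofPred_eq]
    exact ⟨fun ⟨_, _, h⟩ => h, fun h => ⟨e x, by simp, h⟩⟩

theorem main_aux (k N : ℕ) :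
    ∃ (n : ℕ) (r : Fin n → Fin n → Prop), IsTournament r ∧ N ≤ pod r ∧
      ∀ X : Finset (Fin n), X.card ≤ k → pod (fun a b : X => r a b) < 4 := by
  classical
  obtain ⟨n, D, f, hf, hb, hc⟩ := exists_shift_fin (max k 3) (Set (Fin N))
  let lt : Fin n → Fin n → Prop := fun a b => f a < f b ∨ (f a = f b ∧ a < b)
  have lt_irr : ∀ a, ¬ lt a a := by intro a; simp [lt]
  have lt_tr : ∀ a b c, lt a b → lt b c → lt a c := by
    intro a b c h1 h2
    simp only [lt, Fin.lt_def] at *
    omega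
  have lt_tot : ∀ a b, a ≠ b → lt a b ∨ lt b a := by
    intro a b h
    have : a.val ≠ b.val := fun h' => h (Fin.ext h')
    simp only [lt, Fin.lt_def]
    omega
  have lt_as : ∀ a b, lt a b → ¬ lt b a := fun a b h1 h2 => lt_irr a (lt_tr _ _ _ h1 h2)
  have hD : ∀ a b, D a b → lt a b := fun a b h => Or.inl (hf _ _ h)
  let r : Fin n → Fin n → Prop := fun u v => D v u ∨ (lt u v ∧ ¬ D u v)
  have r_irr : ∀ v, ¬ r v v := by
    intro v h
    rcases h with h | h
    · exact lt_irr v (hD _ _ h)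
    · exact lt_irr v h.1
  have notri : ∀ u v w, D u v → D v w → ¬ D u w := by
    intro u v w h1 h2 h3
    obtain ⟨c, hc⟩ := hb {u, v, w} (Finset.card_le_three.trans (le_max_right _ _))
    have a1 := hc u (by simp) v (by simp) h1
    have a2 := hc v (by simp) w (by simp) h2
    have a3 := hc u (by simp) w (by simp) h3
    revert a1 a2 a3
    cases c u <;> cases c v <;> cases c w <;> simp
  refine ⟨n, r, ⟨r_irr, ?_⟩, ?_, ?_⟩
  · intro u v huv
    have h1 := hD u v
    have h2 := hD v u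
    have h3 := lt_as u v
    have h4 := lt_tot u v huv
    simp only [r]
    tauto
  · by_contra hlt
    push Not at hlt
    obtain ⟨P, hP, hU⟩ := Nat.sInf_mem (pod_set_nonempty r r_irr)
    have hsub : ∀ i a b, (a, b) ∈ P i → r a b := by
      intro i a b h
      have : (a, b) ∈ ⋃ i, P i := Set.mem_iUnion.mpr ⟨i, h⟩
      rw [hU] at this
      exact this
    refine hc ⟨fun w => {j | ∃ i, i.val = j.val ∧ ∃ v, D v w ∧ (w, v) ∈ P i}, ?_⟩
    intro v w hvw heq
    have h1 : (w, v) ∈ ⋃ i, P i := by rw [hU]; exact Or.inl hvw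
    obtain ⟨i, hi⟩ := Set.mem_iUnion.mp h1
    have h2 : (⟨i.val, i.2.trans hlt⟩ : Fin N) ∈
        {j : Fin N | ∃ i, i.val = j.val ∧ ∃ v, D v w ∧ (w, v) ∈ P i} := ⟨i, rfl, v, hvw, hi⟩
    have heq' : {j : Fin N | ∃ i, i.val = j.val ∧ ∃ u, D u v ∧ (v, u) ∈ P i} =
        {j : Fin N | ∃ i, i.val = j.val ∧ ∃ v, D v w ∧ (w, v) ∈ P i} := heq
    rw [← heq'] at h2
    obtain ⟨i', hi', u, huv, hu⟩ := h2
    have : i' = i := Fin.ext hi'
    subst this
    rcases hsub _ _ _ (hP _ _ _ _ hi hu) with h | h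
    · exact notri u v w huv hvw h
    · exact lt_as _ _ (lt_tr _ _ _ (hD _ _ huv) (hD _ _ hvw)) h.1
  · intro X hX
    obtain ⟨c, hc⟩ := hb X (hX.trans (le_max_left _ _))
    refine Nat.lt_succ_of_le (Nat.sInf_le ?_)
    refine ⟨![{e | r e.1 e.2 ∧ c e.1 = c e.2}, {e | r e.1 e.2 ∧ c e.1 = true ∧ c e.2 = false},
      {e | r e.1 e.2 ∧ c e.1 = false ∧ c e.2 = true}], ?_, ?_⟩
    · intro i a b d h1 h2
      fin_cases i
      · obtain ⟨h1, h1'⟩ := h1
        obtain ⟨h2, h2'⟩ := h2
        have hcad : c a = c d := h1'.trans h2'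
        refine ⟨Or.inr ⟨lt_tr _ b.1 _ ?_ ?_, fun h => hc _ a.2 _ d.2 h hcad⟩, hcad⟩
        · rcases h1 with h | h
          · exact absurd h1'.symm (hc _ b.2 _ a.2 h)
          · exact h.1
        · rcases h2 with h | h
          · exact absurd h2'.symm (hc _ d.2 _ b.2 h)
          · exact h.1
      · exact absurd (h2.2.1.symm.trans h1.2.2) (by simp)
      · exact absurd (h2.2.1.symm.trans h1.2.2) (by simp)
    · ext e
      simp only [Set.mem_iUnion, Set.mem_ofPred_eq]
      constructor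
      · rintro ⟨i, hi⟩
        fin_cases i
        · exact hi.1
        · exact hi.1
        · exact hi.1
      · intro h
        by_cases h1 : c e.1 = c e.2
        · exact ⟨0, h, h1⟩
        · cases h2 : c e.1
          · refine ⟨2, h, h2, ?_⟩
            rw [h2] at h1
            cases h3 : c e.2
            · exact absurd h3.symm h1
            · rfl
          · refine ⟨1, h, h2, ?_⟩
            rw [h2] at h1
            cases h3 : c e.2
            · rfl
            · exact absurd h3.symm h1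

theorem main :
    ∃ s : ℕ, 0 < s ∧
      (∃ k : ℕ, 0 < k ∧
        ∃ (n : ℕ) (r : Fin n → Fin n → Prop), IsTournament r ∧ n ≤ k ∧ s ≤ pod r) ∧
      ∀ k N : ℕ, ∃ (n : ℕ) (r : Fin n → Fin n → Prop), IsTournament r ∧ N ≤ pod r ∧
        ∀ X : Finset (Fin n), X.card ≤ k → pod (fun a b : X => r a b) < s := by
  refine ⟨4, by norm_num, ?_, main_aux⟩
  obtain ⟨n, r, h1, h2, -⟩ := main_aux 0 4
  exact ⟨n + 1, Nat.succ_pos n, n, r, h1, Nat.le_succ n, h2⟩

end Pool.Agent.P.MP_b90bcc_co
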